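import Pool.Agent.H.MP_cedc2d_lc.C

namespace Pool.Agent.Results.MP_cedc2d_lc.Hard

open Pool.Agent.Lib.CX Pool.Agent.H.MP_cedc2d_lc

theorem result : NPHard fun a : {a : Inst // a.ok} => ¬BJIT a.1 := hard

end Pool.Agent.Results.MP_cedc2d_lc.Hard
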